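import Pool.Agent.AND2B.Top
import Pool.Agent.Helper61_AND.Num
import Pool.Agent.Helper85_IR.Avg

/-!
# ACX, row P6: the number of the dead sites of the whole torus; the first potential is small

`dead_count`: from the density of the dead sites in the blocks and `Scal.ds`, `Scal.dM`:
`16 * #dead ≤ #X`. `start_tail`: under `gm 0 f` the potential is at most `w²` at all sites with the
probability `≥ 15/16`, if `f ≤ t₁(w, C, d)` and the torus has the side `2^μ ≤ f^(-C)`.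
-/

set_option autoImplicit false

open MeasureTheory ProbabilityTheory

open scoped BigOperators NNReal ENNReal

noncomputable section

namespace Pool.Agent.ACX.H48

open Pool.Agent.BED (Tor gau)
open Pool.Agent.AND2B (Scal Gt sg cl)
open Pool.Agent.ANP (Geo gm)
open Pool.Agent.ANP.H61 (rnd geoT neZ pi_card rnd_idem rnd_nest val_rnd sub1)

/-! ### the number of the blocks of the torus -/

variable {μ : ℕ}

/-- the number of the blocks of side `2 ^ j` in one coordinate -/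
theorem rnd_all (j : ℕ) : ((Finset.univ : Finset (ZMod (2 ^ μ))).image (rnd j)).card ≤
    2 ^ (μ - j) := by
  have h0 : ∀ (k : ℕ), μ ≤ k → ∀ b : ZMod (2 ^ μ), rnd k b = 0 := by
    intro k hk b
    unfold rnd
    have h1 : b.val < 2 ^ k := lt_of_lt_of_le (ZMod.val_lt b) (Nat.pow_le_pow_right (by norm_num) hk)
    rw [Nat.div_eq_of_lt h1]
    simp
  rcases le_total j μ with hj | hj
  · refine (Finset.card_le_card ?_).trans (sub1 (μ := μ) j μ hj 0)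
    intro c hc
    obtain ⟨b, -, rfl⟩ := Finset.mem_image.1 hc
    refine Finset.mem_filter.2 ⟨Finset.mem_univ _, rnd_idem j b, h0 μ le_rfl _⟩
  · have h1 : (Finset.univ : Finset (ZMod (2 ^ μ))).image (rnd j) ⊆ {0} := by
      intro c hc
      obtain ⟨b, -, rfl⟩ := Finset.mem_image.1 hc
      rw [h0 j hj b]
      exact Finset.mem_singleton_self _
    refine (Finset.card_le_card h1).trans ?_
    rw [Finset.card_singleton]
    exact Nat.one_le_two_pow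

variable {d : ℕ}

/-- one level -/
theorem all_level (l ρ : ℕ → ℕ) (J N j : ℕ) (S : Finset (Tor d (2 ^ μ))) (D : ℕ)
    (hS : ∀ B, (S ∩ (geoT d μ l ρ J N).blk j B).card ≤ D) :
    S.card ≤ (2 ^ (μ - l j)) ^ d * D := by
  set Γ := geoT d μ l ρ J N with hΓ
  set I := (Finset.univ : Finset (Tor d (2 ^ μ))).image (Γ.bl j) with hI
  have h1 : I.card ≤ (2 ^ (μ - l j)) ^ d := by
    refine pi_card I (fun _ => (Finset.univ : Finset (ZMod (2 ^ μ))).image (rnd (l j))) _ ?_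
      (fun _ => rnd_all (l j))
    intro y hy i
    obtain ⟨x, -, rfl⟩ := Finset.mem_image.1 hy
    exact Finset.mem_image.2 ⟨x i, Finset.mem_univ _, rfl⟩
  have h2 : S ⊆ I.biUnion fun B => S ∩ Γ.blk j B := by
    intro x hx
    rw [Finset.mem_biUnion]
    refine ⟨Γ.bl j x, Finset.mem_image.2 ⟨x, Finset.mem_univ _, rfl⟩, ?_⟩
    rw [Finset.mem_inter]
    refine ⟨hx, ?_⟩
    unfold Geo.blk
    exact Finset.mem_filter.2 ⟨Finset.mem_univ _, rfl⟩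
  calc S.card ≤ (I.biUnion fun B => S ∩ Γ.blk j B).card := Finset.card_le_card h2
    _ ≤ ∑ B ∈ I, (S ∩ Γ.blk j B).card := Finset.card_biUnion_le
    _ ≤ ∑ _B ∈ I, D := Finset.sum_le_sum fun B _ => hS B
    _ = I.card * D := by rw [Finset.sum_const, smul_eq_mul]
    _ ≤ _ := Nat.mul_le_mul_right _ h1

theorem card_tor : (Fintype.card (Tor d (2 ^ μ)) : ℝ) = ((2 : ℝ) ^ μ) ^ d := by
  have := IR.H85A.card_tor (d := d) (M := 2 ^ μ)
  rw [this]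
  push_cast
  rfl

/-- DEAD COUNT, numbers -/
theorem dead_count' (hd : 3 ≤ d) (l ρ Dn : ℕ → ℕ) (J N n : ℕ)
    (hs : ∑ i ∈ Finset.range (n + 1), (3 ^ d * Dn i : ℝ) / 2 ^ l i ≤ 1 / 4)
    (hM : 16 * (1 + 2 * ∑ i ∈ Finset.range (n + 1), (3 ^ d * Dn i : ℝ)) ≤ 2 ^ μ)
    (dd : ℕ → Finset (Tor d (2 ^ μ)))
    (hdd : ∀ j B, (dd j ∩ (geoT d μ l ρ J N).blk j B).card ≤ Dn j)
    (S : Finset (Tor d (2 ^ μ))) (hS : ∀ x ∈ S, ∃ j ≤ n, x ∈ dd j) :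
    16 * S.card ≤ Fintype.card (Tor d (2 ^ μ)) := by
  have h1 : S ⊆ (Finset.range (n + 1)).biUnion dd := by
    intro x hx
    obtain ⟨j, hj, hxj⟩ := hS x hx
    rw [Finset.mem_biUnion]
    exact ⟨j, Finset.mem_range.2 (by omega), hxj⟩
  have h2 : S.card ≤ ∑ j ∈ Finset.range (n + 1), (2 ^ (μ - l j)) ^ d * Dn j :=
    (Finset.card_le_card h1).trans (Finset.card_biUnion_le.trans
      (Finset.sum_le_sum fun j _ => all_level l ρ J N j (dd j) (Dn j) (hdd j)))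
  have hX0 : (0 : ℝ) < 2 ^ μ := by positivity
  have h3d : (27 : ℝ) ≤ 3 ^ d := by
    calc (27 : ℝ) = 3 ^ 3 := by norm_num
      _ ≤ 3 ^ d := pow_le_pow_right₀ (by norm_num) hd
  have h3 : ∀ j ∈ Finset.range (n + 1), (((2 ^ (μ - l j)) ^ d * Dn j : ℕ) : ℝ) ≤
      ((2 : ℝ) ^ μ) ^ d / 27 * ((3 ^ d * Dn j : ℝ) / 2 ^ l j + (3 ^ d * Dn j : ℝ) / 2 ^ μ) := by
    intro j _
    push_cast
    have hD0 : (0 : ℝ) ≤ Dn j := by positivity
    have hp : (0 : ℝ) < 2 ^ l j := by positivity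
    rcases le_total (l j) μ with hj | hj
    · have e1 : (2 : ℝ) ^ μ = 2 ^ (μ - l j) * 2 ^ l j := by
        rw [← pow_add, Nat.sub_add_cancel hj]
      have e2 : (2 : ℝ) ^ l j ≤ ((2 : ℝ) ^ l j) ^ d :=
        le_self_pow₀ (one_le_pow₀ (by norm_num)) (by omega)
      have e3 : ((2 : ℝ) ^ (μ - l j)) ^ d * Dn j ≤
          ((2 : ℝ) ^ μ) ^ d / 27 * ((3 ^ d * Dn j : ℝ) / 2 ^ l j) := by
        rw [e1, mul_pow]
        have e4 : ((2 : ℝ) ^ (μ - l j)) ^ d * ((2 : ℝ) ^ l j) ^ d / 27 *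
            (3 ^ d * Dn j / 2 ^ l j) = (((2 : ℝ) ^ (μ - l j)) ^ d * Dn j) *
            ((3 ^ d / 27) * (((2 : ℝ) ^ l j) ^ d / 2 ^ l j)) := by ring
        rw [e4]
        have e5 : 1 ≤ (3 ^ d / 27) * (((2 : ℝ) ^ l j) ^ d / 2 ^ l j) := by
          have f1 : (1 : ℝ) ≤ 3 ^ d / 27 := by rw [one_le_div (by norm_num)]; exact h3d
          have f2 : 1 ≤ ((2 : ℝ) ^ l j) ^ d / 2 ^ l j := by rw [one_le_div hp]; exact e2
          nlinarith
        exact le_mul_of_one_le_right (by positivity) e5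
      have e6 : (0 : ℝ) ≤ ((2 : ℝ) ^ μ) ^ d / 27 * ((3 ^ d * Dn j : ℝ) / 2 ^ μ) := by positivity
      rw [mul_add]
      linarith
    · have e1 : μ - l j = 0 := by omega
      rw [e1, pow_zero, one_pow, one_mul]
      have e2 : (2 : ℝ) ^ μ ≤ ((2 : ℝ) ^ μ) ^ d :=
        le_self_pow₀ (one_le_pow₀ (by norm_num)) (by omega)
      have e3 : (Dn j : ℝ) ≤ ((2 : ℝ) ^ μ) ^ d / 27 * ((3 ^ d * Dn j : ℝ) / 2 ^ μ) := by
        have e4 : ((2 : ℝ) ^ μ) ^ d / 27 * ((3 ^ d * Dn j : ℝ) / 2 ^ μ) =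
            Dn j * ((3 ^ d / 27) * (((2 : ℝ) ^ μ) ^ d / 2 ^ μ)) := by ring
        rw [e4]
        refine le_mul_of_one_le_right hD0 ?_
        have f1 : (1 : ℝ) ≤ 3 ^ d / 27 := by rw [one_le_div (by norm_num)]; exact h3d
        have f2 : 1 ≤ ((2 : ℝ) ^ μ) ^ d / 2 ^ μ := by rw [one_le_div hX0]; exact e2
        nlinarith
      have e6 : (0 : ℝ) ≤ ((2 : ℝ) ^ μ) ^ d / 27 * ((3 ^ d * Dn j : ℝ) / 2 ^ l j) := by positivity
      rw [mul_add]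
      linarith
  have h4 : (S.card : ℝ) ≤ ((2 : ℝ) ^ μ) ^ d / 27 * (1 / 4 + 1 / 32) := by
    calc (S.card : ℝ) ≤ ((∑ j ∈ Finset.range (n + 1), (2 ^ (μ - l j)) ^ d * Dn j : ℕ) : ℝ) := by
          exact_mod_cast h2
      _ = ∑ j ∈ Finset.range (n + 1), (((2 ^ (μ - l j)) ^ d * Dn j : ℕ) : ℝ) := by
          push_cast
          rfl
      _ ≤ ∑ j ∈ Finset.range (n + 1), ((2 : ℝ) ^ μ) ^ d / 27 *
            ((3 ^ d * Dn j : ℝ) / 2 ^ l j + (3 ^ d * Dn j : ℝ) / 2 ^ μ) := Finset.sum_le_sum h3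
      _ = ((2 : ℝ) ^ μ) ^ d / 27 * (∑ j ∈ Finset.range (n + 1), (3 ^ d * Dn j : ℝ) / 2 ^ l j +
            (∑ j ∈ Finset.range (n + 1), (3 ^ d * Dn j : ℝ)) / 2 ^ μ) := by
          rw [← Finset.mul_sum, Finset.sum_add_distrib, Finset.sum_div]
      _ ≤ _ := by
          refine mul_le_mul_of_nonneg_left (add_le_add hs ?_) (by positivity)
          rw [div_le_iff₀ hX0]
          linarith
  have h5 : (0 : ℝ) < ((2 : ℝ) ^ μ) ^ d := by positivity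
  have h6 : (16 * S.card : ℝ) ≤ Fintype.card (Tor d (2 ^ μ)) := by
    rw [card_tor]
    linarith
  exact_mod_cast h6

/-- DEAD COUNT: on the torus of `Scal`, at the end (levels `≤ N + 1`) -/
theorem dead_count (hd : 3 ≤ d) {th : ℝ≥0} {c₁ C₁ : ℝ} {α J : ℕ} {β : ℝ} {w : ℝ≥0} {t : ℝ}
    {N : ℕ} {kk l r Kn Dn : ℕ → ℕ} (hS : Scal d th c₁ C₁ α J β w t N μ kk l r Kn Dn) {n : ℕ}
    (hn : n ≤ N + 1) {D : Finset (Tor d (2 ^ μ))}
    (hD : ∃ dd : ℕ → Finset (Tor d (2 ^ μ)), (∀ x ∈ D, ∃ j ≤ n, x ∈ dd j) ∧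
      ∀ j B, (dd j ∩ (Gt d μ J N l r).blk j B).card ≤ Dn j) :
    16 * D.card ≤ Fintype.card (Tor d (2 ^ μ)) := by
  obtain ⟨dd, h1, h2⟩ := hD
  refine dead_count' hd l (fun n => 2 ^ r n) Dn J N (N + 1) hS.ds hS.dM dd h2 D fun x hx => ?_
  obtain ⟨j, hj, hx⟩ := h1 x hx
  exact ⟨j, by omega, hx⟩

/-- the same from the facts of a configuration -/
theorem dead_fc (hd : 3 ≤ d) {th : ℝ≥0} {c₁ C₁ : ℝ} {α J : ℕ} {β : ℝ} {w : ℝ≥0} {t : ℝ}
    {N : ℕ} {kk l r Kn Dn : ℕ → ℕ} (hS : Scal d th c₁ C₁ α J β w t N μ kk l r Kn Dn) {n k : ℕ}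
    (hn : n ≤ N + 1) {cl' : ℕ → ℝ≥0} {P run : Finset (Tor d (2 ^ μ))}
    {T : ANP.Cfg (Tor d (2 ^ μ))} (hF : ANP.Fc (Gt d μ J N l r) kk cl' Dn n k P T run) :
    16 * (Finset.univ.filter fun x => T.s x = 0).card ≤ Fintype.card (Tor d (2 ^ μ)) := by
  obtain ⟨dd, h1, h2⟩ := hF.dens
  exact dead_count hd hS hn ⟨dd, fun x hx => h1 x (Finset.mem_filter.1 hx).2, h2⟩

/-! ### the first potential -/

/-- the first potential is small -/
theorem start_tail (d : ℕ) (w C : ℝ) (hw : 0 < w) : ∃ t₁ : ℝ, 0 < t₁ ∧ t₁ ≤ 1 ∧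
    ∀ (f : ℝ≥0) (μ : ℕ), 0 < f → (f : ℝ) ≤ t₁ → (2 ^ μ : ℝ) ≤ (f : ℝ) ^ (-C) →
      gm (fun _ : Tor d (2 ^ μ) => 0) (fun _ => f) {V | ¬ ∀ x, |V x| ≤ w ^ 2} ≤
        ENNReal.ofReal (1 / 16) := by
  have h1 := AND.Num.small_exp 2 (w ^ 4 / 2) 1 (C * d) (1 / 2) (by positivity) one_pos
    (by norm_num)
  have h2 := AND.Num.small_const 16 (1 / 2) (by norm_num)
  obtain ⟨t₁, ht, ht1, h⟩ := (h1.and h2).ex
  refine ⟨t₁, ht, ht1, fun f μ hf hft hμ => ?_⟩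
  have hf0 : (0 : ℝ) < f := by exact_mod_cast hf
  obtain ⟨h3, h4⟩ := h f hf0 hft
  have h5 := IR.H85A.gau_tail (d := d) (M := 2 ^ μ) hf (s := w ^ 2) (by positivity)
  refine h5.trans (ENNReal.ofReal_le_ofReal ?_)
  have e1 : (((2 ^ μ : ℕ) : ℝ)) ^ d ≤ (f : ℝ) ^ (-(C * d)) := by
    push_cast
    calc ((2 : ℝ) ^ μ) ^ d ≤ ((f : ℝ) ^ (-C)) ^ d := pow_le_pow_left₀ (by positivity) hμ d
      _ = (f : ℝ) ^ (-(C * d)) := by
          rw [← Real.rpow_natCast, ← Real.rpow_mul hf0.le]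
          congr 1
          ring
  have e2 : -((w ^ 2) ^ 2 / (2 * (f : ℝ))) = -(w ^ 4 / 2 * (f : ℝ) ^ (-(1 : ℝ))) := by
    rw [Real.rpow_neg_one]
    field_simp
  have e3 : Real.exp (-((f : ℝ) ^ (-(1 / 2 : ℝ)))) ≤ 1 / 16 := by
    have f1 := Real.add_one_le_exp ((f : ℝ) ^ (-(1 / 2 : ℝ)))
    rw [Real.exp_neg]
    rw [inv_le_comm₀ (Real.exp_pos _) (by norm_num)]
    norm_num at f1 h4 ⊢
    linarith
  calc (((2 ^ μ : ℕ) : ℝ)) ^ d * (2 * Real.exp (-((w ^ 2) ^ 2 / (2 * (f : ℝ))))) ≤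
        (f : ℝ) ^ (-(C * d)) * (2 * Real.exp (-((w ^ 2) ^ 2 / (2 * (f : ℝ))))) :=
        mul_le_mul_of_nonneg_right e1 (by positivity)
    _ = 2 * (f : ℝ) ^ (-(C * d)) * Real.exp (-(w ^ 4 / 2 * (f : ℝ) ^ (-(1 : ℝ)))) := by
        rw [e2]
        ring
    _ ≤ Real.exp (-((f : ℝ) ^ (-(1 / 2 : ℝ)))) := h3
    _ ≤ 1 / 16 := e3

end Pool.Agent.ACX.H48
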